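import Pool.Agent.Work.MP_dc37f8_co.Loss

/-!
# MP_dc37f8_co: sets in convex position determine at least `n² / 12 - n^(3/2) / 2` triangles
-/

namespace Pool.Agent.Results.MP_dc37f8_co.ConvexPosition

/-- The plane. -/
abbrev Plane := EuclideanSpace ℝ (Fin 2)

/-- The congruence classes of triangles determined by `P`, a triangle being an unordered triple
of distinct points and its class being recorded (side-side-side) by the multiset of its three
pairwise distances. -/
def triangleClasses (P : Finset Plane) : Set (Multiset ℝ) :=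
  {m | ∃ a ∈ P, ∃ b ∈ P, ∃ c ∈ P, a ≠ b ∧ b ≠ c ∧ a ≠ c ∧ m = {dist a b, dist b c, dist a c}}

/-- `T(P)`, the number of congruence classes of triangles determined by `P`. -/
noncomputable def T (P : Finset Plane) : ℕ := (triangleClasses P).ncard

theorem triangleClasses_eq (P : Finset Plane) :
    triangleClasses P = ↑(Pool.Agent.ConvTri.TC P) := by
  classical
  ext m
  simp only [triangleClasses, Set.mem_ofPred_eq, Pool.Agent.ConvTri.TC, Finset.coe_image,
    Set.mem_image, Finset.mem_coe, Finset.mem_filter, Finset.mem_product]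
  constructor
  · rintro ⟨a, ha, b, hb, c, hc, hab, hbc, hac, rfl⟩
    exact ⟨(a, b, c), ⟨⟨ha, hb, hc⟩, hab, hbc, hac⟩, rfl⟩
  · rintro ⟨⟨a, b, c⟩, ⟨⟨ha, hb, hc⟩, hab, hbc, hac⟩, rfl⟩
    exact ⟨a, ha, b, hb, c, hc, hab, hbc, hac, rfl⟩

/-- **Result.** Let `P` be a set of `n` points of the plane in (strictly) convex position: no
point of `P` lies in the convex hull of the others. Then
`T(P) ≥ n² / 12 - n^(3/2) / 2`. -/
theorem result (P : Finset Plane)
    (hP : ConvexIndependent ℝ (Subtype.val : {x : Plane // x ∈ P} → Plane)) :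
    (P.card : ℝ) ^ 2 / 12 - (P.card : ℝ) ^ (3 / 2 : ℝ) / 2 ≤ (T P : ℝ) := by
  have h := Pool.Agent.ConvTri.main32 ((Pool.Agent.ConvTri.convPos_iff P).2 hP)
  have hT : T P = (Pool.Agent.ConvTri.TC P).card := by
    unfold T
    rw [triangleClasses_eq, Set.ncard_coe_finset]
  rw [hT]
  exact h

end Pool.Agent.Results.MP_dc37f8_co.ConvexPosition
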