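import Pool.Agent.Work.MP_dc37f8_rd.All
import Pool.Agent.Work.MP_dc37f8_rat.All
import Pool.Agent.Work.MP_dc37f8_rat.RATL

/-!
# MP_dc37f8_co: the regular polygon is the unique minimiser of the number of distinct triangles
among large sets whose popular rotations have rational cosines
-/

namespace Pool.Agent.Results.MP_dc37f8_co.RationalRotations

/-- The plane. -/
abbrev Plane := EuclideanSpace ℝ (Fin 2)

/-- The congruence classes of triangles determined by `P`, a triangle being an unordered triple
of distinct points and its class being recorded (side-side-side) by the multiset of its three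
pairwise distances. -/
def triangleClasses (P : Finset Plane) : Set (Multiset ℝ) :=
  {m | ∃ a ∈ P, ∃ b ∈ P, ∃ c ∈ P, a ≠ b ∧ b ≠ c ∧ a ≠ c ∧ m = {dist a b, dist b c, dist a c}}

/-- `T(P)`, the number of congruence classes of triangles determined by `P`. -/
noncomputable def T (P : Finset Plane) : ℕ := (triangleClasses P).ncard

/-- `P` is the vertex set of a regular `n`-gon with centre `c`. -/
def IsRegularPolygon (n : ℕ) (c : Plane) (P : Finset Plane) : Prop :=
  ∃ (r θ : ℝ), 0 < r ∧ (P : Set Plane) = Set.range (fun k : Fin n =>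
    (!₂[c 0 + r * Real.cos (θ + 2 * Real.pi * k / n),
      c 1 + r * Real.sin (θ + 2 * Real.pi * k / n)] : Plane))

/-- The image of the vector `v` under the rotation about the origin by the angle `φ`. -/
noncomputable def rot (φ : ℝ) (v : Plane) : Plane :=
  !₂[Real.cos φ * v 0 - Real.sin φ * v 1, Real.sin φ * v 0 + Real.cos φ * v 1]

open Classical in
/-- The points of `P` which are on no line with at least `β |P|` points of `P`. -/
noncomputable def poorPoints (β : ℝ) (P : Finset Plane) : Finset Plane :=
  P.filter (fun p => ∀ l : AffineSubspace ℝ Plane, Module.finrank ℝ l.direction = 1 → p ∈ l →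
    (((P : Set Plane) ∩ (l : Set Plane)).ncard : ℝ) < β * P.card)

open Classical in
/-- The number of quadruples `(a, b, c, d)` of points of `Q` for which the vector `c - d` is the
vector `a - b` rotated by the angle `φ`. -/
noncomputable def rotEnergy (Q : Finset Plane) (φ : ℝ) : ℕ :=
  ((Q ×ˢ Q ×ˢ Q ×ˢ Q).filter (fun z => z.2.2.1 - z.2.2.2 = rot φ (z.1 - z.2.1))).card

/-- **Result.** There is an absolute constant `δ > 0` such that for every `β > 0` there is `n₀`
such that the following holds for every set `P` of `n ≥ n₀` points of the plane and every subset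
`P'` of `P` with at least `(1 - δ) n` points. Suppose that (a) or (b) holds.

(a) For every angle `φ` with irrational cosine at most `δ n³` quadruples `(a, b, c, d)` of points
of `P₀` have the property that `c - d` is `a - b` rotated by `φ`. Here `P₀` is the set of the
points of `P'` which are on no line with at least `β |P'|` points of `P'`.

(b) `P'` is contained in a set `o + ℚ u + ℚ v` (`o`, `u`, `v` in the plane), for example in a
lattice.

Then `T(P) ≥ [n² / 12]`, the nearest integer to `n² / 12`, with equality only if `P` is the vertex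
set of a regular `n`-gon. -/
theorem result : ∃ δ : ℝ, 0 < δ ∧ ∀ β : ℝ, 0 < β → ∃ n₀ : ℕ,
    ∀ P P' : Finset Plane, P' ⊆ P → n₀ ≤ P.card → (1 - δ) * (P.card : ℝ) ≤ P'.card →
    ((∀ φ : ℝ, Irrational (Real.cos φ) →
        (rotEnergy (poorPoints β P') φ : ℝ) ≤ δ * (P.card : ℝ) ^ 3) ∨
      (∃ o u v : Plane, ∀ p ∈ P', ∃ x y : ℚ, p = o + ((x : ℝ) • u + (y : ℝ) • v))) →
    round ((P.card : ℝ) ^ 2 / 12) ≤ (T P : ℤ) ∧
    ((T P : ℤ) = round ((P.card : ℝ) ^ 2 / 12) → ∃ c, IsRegularPolygon P.card c P) := by
  have hfin := Pool.RD.ratcos_final (Pool.RD.full_FINR Pool.RAT.full_LAT)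
  obtain ⟨δ₂, n₂, hδ₂, h2⟩ := Pool.RAT.lattice_cor hfin
  obtain ⟨δ₁, hδ₁, h1⟩ := hfin
  have hT : ∀ P : Finset Plane, T P = (Pool.Agent.ConvTri.TC P).card :=
    fun P => Pool.Agent.ConvTri.concT_eq P
  refine ⟨min δ₁ δ₂, lt_min hδ₁ hδ₂, ?_⟩
  intro β hβ
  obtain ⟨n₀, h0⟩ := h1 β hβ
  refine ⟨max n₀ n₂, ?_⟩
  intro P P' hsub hn hm hor
  have hP : (0 : ℝ) ≤ P.card := Nat.cast_nonneg _
  rw [hT]
  rcases hor with hrot | ⟨o, u, v, hrat⟩
  · refine h0 P P' hsub (le_trans (le_max_left _ _) hn) (le_trans ?_ hm)
      (fun φ hφ => le_trans (hrot φ hφ) ?_)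
    · exact mul_le_mul_of_nonneg_right (by linarith [min_le_left δ₁ δ₂]) hP
    · exact mul_le_mul_of_nonneg_right (min_le_left δ₁ δ₂) (pow_nonneg hP 3)
  · refine h2 P P' o u v hsub (le_trans (le_max_right _ _) hn) (le_trans ?_ hm) hrat
    exact mul_le_mul_of_nonneg_right (by linarith [min_le_right δ₁ δ₂]) hP

end Pool.Agent.Results.MP_dc37f8_co.RationalRotations
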