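import Pool.Agent.Work.MP_dc37f8_co.Main

/-!
# MP_dc37f8_co: the regular polygon minimises the number of distinct triangles among the sets
at least three quarters of whose points lie on a circle
-/

namespace Pool.Agent.Results.MP_dc37f8_co.ThreeQuartersCircle

/-- The plane. -/
abbrev Plane := EuclideanSpace ℝ (Fin 2)

/-- The congruence classes of triangles determined by `P`, a triangle being an unordered triple
of distinct points and its class being recorded (side-side-side) by the multiset of its three
pairwise distances. -/
def triangleClasses (P : Finset Plane) : Set (Multiset ℝ) :=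
  {m | ∃ a ∈ P, ∃ b ∈ P, ∃ c ∈ P, a ≠ b ∧ b ≠ c ∧ a ≠ c ∧ m = {dist a b, dist b c, dist a c}}

/-- `T(P)`, the number of congruence classes of triangles determined by `P`. -/
noncomputable def T (P : Finset Plane) : ℕ := (triangleClasses P).ncard

/-- `P` is the vertex set of a regular `n`-gon with centre `c`. -/
def IsRegularPolygon (n : ℕ) (c : Plane) (P : Finset Plane) : Prop :=
  ∃ (r θ : ℝ), 0 < r ∧ (P : Set Plane) = Set.range (fun k : Fin n =>
    (!₂[c 0 + r * Real.cos (θ + 2 * Real.pi * k / n),
      c 1 + r * Real.sin (θ + 2 * Real.pi * k / n)] : Plane))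

/-- **Result.** Let `P` be a set of `n ≥ 3` points of the plane, at least three quarters of which
lie on one circle (with centre `c` and radius `r`). Then `T(P) ≥ [n² / 12]`, the nearest integer
to `n² / 12`. If equality holds and `n ≥ 17`, or equality holds, `n ≥ 5` and all the points are
on the circle, then `P` is the vertex set of a regular `n`-gon. -/
theorem result (c : Plane) (r : ℝ) (P : Finset Plane) (hn : 3 ≤ P.card)
    (hP : 3 * P.card ≤ 4 * (P.filter (fun p => dist p c = r)).card) :
    round ((P.card : ℝ) ^ 2 / 12) ≤ (T P : ℤ) ∧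
    ((17 ≤ P.card ∨ (5 ≤ P.card ∧ ∀ p ∈ P, dist p c = r)) →
      (T P : ℤ) = round ((P.card : ℝ) ^ 2 / 12) → IsRegularPolygon P.card c P) := by
  have hT : T P = (Pool.Agent.ConvTri.TC P).card := Pool.Agent.ConvTri.concT_eq P
  have h := Pool.Agent.ConvTri.circle_final (c := c) (r := r) hn (by convert hP using 3)
  rw [hT]
  exact h

end Pool.Agent.Results.MP_dc37f8_co.ThreeQuartersCircle
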